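import Pool.Agent.Helper32_ND.Stmts

/-! Squad ND, module RSYM: the bilinear forms are symmetric. -/

set_option autoImplicit false

namespace Pool.Agent.ND.H23

open Finset

theorem rsym : RsymStmt := by
  intro ι _ _ n A K _ ρ r
  induction r with
  | zero =>
    intro a b
    rw [R_zero, R_zero, mul_comm]
  | succ r ih =>
    intro a b
    rw [R_succ, R_succ]
    refine Finset.sum_congr rfl fun X _ => ?_
    rw [ih]

end Pool.Agent.ND.H23
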